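import Mathlib

set_option autoImplicit false

open Finset Complex MeasureTheory

namespace Pool.Agent.H222R3

/-- number of pairs in `[1,X]` congruent modulo `q` is at least `X^2/q`. -/
lemma pairs_lower (q X : ℕ) (hq : 0 < q) :
    (X : ℝ) ^ 2 ≤ q * ∑ x ∈ Icc 1 X, ∑ y ∈ Icc 1 X, (if x % q = y % q then (1 : ℝ) else 0) := by
  have h1 : ∀ x y : ℕ, (if x % q = y % q then (1 : ℝ) else 0)
      = ∑ r ∈ range q, (if x % q = r then (1 : ℝ) else 0) * (if y % q = r then (1 : ℝ) else 0) := by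
    intro x y
    rw [Finset.sum_eq_single (x % q)]
    · simp only [if_true, one_mul]
      by_cases h : x % q = y % q
      · simp [h]
      · rw [if_neg h, if_neg (fun h' => h h'.symm)]
    · intro b _ hb
      rw [if_neg (fun h => hb h.symm), zero_mul]
    · intro h
      exact absurd (Finset.mem_range.2 (Nat.mod_lt _ hq)) h
  have h2 : ∑ x ∈ Icc 1 X, ∑ y ∈ Icc 1 X, (if x % q = y % q then (1 : ℝ) else 0)
      = ∑ r ∈ range q, (∑ x ∈ Icc 1 X, (if x % q = r then (1 : ℝ) else 0)) ^ 2 := by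
    simp_rw [h1]
    calc ∑ x ∈ Icc 1 X, ∑ y ∈ Icc 1 X, ∑ r ∈ range q,
          (if x % q = r then (1 : ℝ) else 0) * (if y % q = r then (1 : ℝ) else 0)
        = ∑ x ∈ Icc 1 X, ∑ r ∈ range q, ∑ y ∈ Icc 1 X,
          (if x % q = r then (1 : ℝ) else 0) * (if y % q = r then (1 : ℝ) else 0) := by
          refine Finset.sum_congr rfl fun x _ => Finset.sum_comm
      _ = ∑ r ∈ range q, ∑ x ∈ Icc 1 X, ∑ y ∈ Icc 1 X,
          (if x % q = r then (1 : ℝ) else 0) * (if y % q = r then (1 : ℝ) else 0) :=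
          Finset.sum_comm
      _ = ∑ r ∈ range q, (∑ x ∈ Icc 1 X, (if x % q = r then (1 : ℝ) else 0)) ^ 2 := by
          refine Finset.sum_congr rfl fun r _ => ?_
          rw [sq, Finset.sum_mul_sum]
  have h3 : ∑ r ∈ range q, ∑ x ∈ Icc 1 X, (if x % q = r then (1 : ℝ) else 0) = X := by
    rw [Finset.sum_comm]
    have : ∀ x ∈ Icc 1 X, ∑ r ∈ range q, (if x % q = r then (1 : ℝ) else 0) = 1 := by
      intro x _
      rw [Finset.sum_ite_eq, if_pos (Finset.mem_range.2 (Nat.mod_lt _ hq))]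
    rw [Finset.sum_congr rfl this]
    simp
  rw [h2]
  have h4 := sq_sum_le_card_mul_sum_sq (s := range q)
    (f := fun r => ∑ x ∈ Icc 1 X, (if x % q = r then (1 : ℝ) else 0))
  rw [h3, Finset.card_range] at h4
  exact h4

/-- phase -/
noncomputable def ph (t : ℝ) : ℂ := Complex.exp (2 * (Real.pi : ℂ) * Complex.I * t)

lemma ph_add (s t : ℝ) : ph (s + t) = ph s * ph t := by
  unfold ph
  rw [← Complex.exp_add]
  congr 1
  push_cast
  ring

lemma ph_nat (n : ℕ) : ph n = 1 := by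
  unfold ph
  rw [Complex.exp_eq_one_iff]
  exact ⟨n, by push_cast; ring⟩

lemma ph_int (n : ℤ) : ph n = 1 := by
  unfold ph
  rw [Complex.exp_eq_one_iff]
  exact ⟨n, by push_cast; ring⟩

lemma ph_conj (t : ℝ) : (starRingEnd ℂ) (ph t) = ph (-t) := by
  unfold ph
  rw [← Complex.exp_conj]
  congr 1
  rw [map_mul, map_mul, map_mul, Complex.conj_I, Complex.conj_ofReal, Complex.conj_ofReal,
    map_ofNat]
  push_cast
  ring

lemma ph_re (t : ℝ) : (ph t).re = Real.cos (2 * Real.pi * t) := by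
  unfold ph
  have : 2 * (Real.pi : ℂ) * Complex.I * t = ((2 * Real.pi * t : ℝ) : ℂ) * Complex.I := by
    push_cast; ring
  rw [this, Complex.exp_ofReal_mul_I_re]

lemma ph_pow (t : ℝ) (n : ℕ) : ph t ^ n = ph (n * t) := by
  unfold ph
  rw [← Complex.exp_nat_mul]
  congr 1
  push_cast
  ring

lemma geom (q : ℕ) (hq : 0 < q) (x y : ℕ) :
    ∑ b ∈ range q, ph (b / q * x) * (starRingEnd ℂ) (ph (b / q * y))
      = if x % q = y % q then (q : ℂ) else 0 := by
  have hq' : (q : ℝ) ≠ 0 := by exact_mod_cast hq.ne'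
  set u : ℂ := ph (((x : ℝ) - y) / q) with hu
  have h1 : ∀ b ∈ range q, ph (b / q * x) * (starRingEnd ℂ) (ph (b / q * y)) = u ^ b := by
    intro b _
    rw [ph_conj, ← ph_add, hu, ph_pow]
    congr 1
    field_simp
    ring
  rw [Finset.sum_congr rfl h1]
  have huq : u ^ q = 1 := by
    rw [hu, ph_pow]
    have : (q : ℝ) * (((x : ℝ) - y) / q) = (((x : ℤ) - (y : ℤ) : ℤ) : ℝ) := by
      push_cast
      field_simp
    rw [this, ph_int]
  by_cases h : x % q = y % q
  · rw [if_pos h]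
    have hu1 : u = 1 := by
      have hd : (q : ℤ) ∣ (x : ℤ) - y := by
        have : (y : ℤ) ≡ x [ZMOD q] := by
          have := (Int.natCast_modEq_iff (a := y) (b := x) (n := q)).2 h.symm
          exact this
        exact this.dvd
      obtain ⟨k, hk⟩ := hd
      rw [hu]
      have : ((x : ℝ) - y) / q = (k : ℝ) := by
        have h2 : ((x : ℝ) - y) = q * k := by exact_mod_cast hk
        rw [h2]
        field_simp
      rw [this, ph_int]
    simp [hu1]
  · rw [if_neg h]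
    have hu1 : u ≠ 1 := by
      intro hu1
      apply h
      rw [hu] at hu1
      unfold ph at hu1
      rw [Complex.exp_eq_one_iff] at hu1
      obtain ⟨n, hn⟩ := hu1
      have h2 : (((((x : ℝ) - y) / q : ℝ)) : ℂ) = ((n : ℝ) : ℂ) := by
        have hpi : (2 * (Real.pi : ℂ) * Complex.I) ≠ 0 := Complex.two_pi_I_ne_zero
        apply mul_left_cancel₀ hpi
        rw [hn]
        push_cast
        ring
      have h3 : ((x : ℝ) - y) / q = n := by exact_mod_cast h2
      have h4 : (x : ℝ) - y = n * q := by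
        rw [← h3]; field_simp
      have h5 : (x : ℤ) - y = n * q := by exact_mod_cast h4
      have h6 : (y : ℤ) ≡ x [ZMOD q] := by
        rw [Int.modEq_iff_dvd]
        exact ⟨n, by rw [h5]; ring⟩
      exact ((Int.natCast_modEq_iff (a := y) (b := x) (n := q)).1 h6).symm
    have := mul_geom_sum u q
    rw [huq, sub_self] at this
    rcases mul_eq_zero.1 this with h' | h'
    · exact absurd (sub_eq_zero.1 h') hu1
    · exact h'

/-- pointwise lower bound for the sum over `b`. -/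
lemma pointwise (q a X : ℕ) (hq : 0 < q) (hX : 0 < X) (β₀ β₁ : ℝ)
    (h0 : 0 ≤ β₀) (h0' : β₀ ≤ 1 / (12 * X)) (h1 : 0 ≤ β₁) (h1' : β₁ ≤ 1 / (12 * (X:ℝ) ^ 2)) :
    (X : ℝ) ^ 2 / 2 ≤ ∑ b ∈ range q,
      ‖∑ x ∈ Icc 1 X, ph (((b : ℝ) / q + β₀) * x + ((a : ℝ) / q + β₁) * x ^ 2)‖ ^ 2 := by
  have hq' : (q : ℝ) ≠ 0 := by exact_mod_cast hq.ne'
  have hXr : (0 : ℝ) < X := by exact_mod_cast hX
  set w : ℕ → ℂ := fun x => ph (β₀ * x + ((a : ℝ) / q + β₁) * x ^ 2) with hw
  have e1 : ∀ b ∈ range q, (((‖∑ x ∈ Icc 1 X,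
      ph (((b : ℝ) / q + β₀) * x + ((a : ℝ) / q + β₁) * x ^ 2)‖ ^ 2 : ℝ)) : ℂ)
      = ∑ x ∈ Icc 1 X, ∑ y ∈ Icc 1 X, (w x * (starRingEnd ℂ) (w y)) *
          (ph (b / q * x) * (starRingEnd ℂ) (ph (b / q * y))) := by
    intro b _
    have : ∀ z : ℂ, ((‖z‖ ^ 2 : ℝ) : ℂ) = z * (starRingEnd ℂ) z := by
      intro z
      rw [Complex.mul_conj, Complex.normSq_eq_norm_sq]
    rw [this, map_sum, Finset.sum_mul_sum]
    refine Finset.sum_congr rfl fun x _ => Finset.sum_congr rfl fun y _ => ?_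
    have e : ∀ x : ℕ, ph (((b : ℝ) / q + β₀) * x + ((a : ℝ) / q + β₁) * x ^ 2)
        = w x * ph (b / q * x) := by
      intro x
      rw [hw, ← ph_add]
      congr 1
      ring
    rw [e, e, map_mul]
    ring
  have e2 : ((∑ b ∈ range q, ‖∑ x ∈ Icc 1 X,
      ph (((b : ℝ) / q + β₀) * x + ((a : ℝ) / q + β₁) * x ^ 2)‖ ^ 2 : ℝ) : ℂ)
      = ∑ x ∈ Icc 1 X, ∑ y ∈ Icc 1 X, (w x * (starRingEnd ℂ) (w y)) *
          (if x % q = y % q then (q : ℂ) else 0) := by
    rw [Complex.ofReal_sum, Finset.sum_congr rfl e1, Finset.sum_comm]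
    refine Finset.sum_congr rfl fun x _ => ?_
    rw [Finset.sum_comm]
    refine Finset.sum_congr rfl fun y _ => ?_
    rw [← Finset.mul_sum, geom q hq]
  have e3 : (∑ b ∈ range q, ‖∑ x ∈ Icc 1 X,
      ph (((b : ℝ) / q + β₀) * x + ((a : ℝ) / q + β₁) * x ^ 2)‖ ^ 2 : ℝ)
      = ∑ x ∈ Icc 1 X, ∑ y ∈ Icc 1 X, ((w x * (starRingEnd ℂ) (w y)) *
          (if x % q = y % q then (q : ℂ) else 0)).re := by
    have := congrArg Complex.re e2
    rw [Complex.ofReal_re] at this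
    rw [this, Complex.re_sum]
    refine Finset.sum_congr rfl fun x _ => ?_
    rw [Complex.re_sum]
  rw [e3]
  have e4 : ∀ x ∈ Icc 1 X, ∀ y ∈ Icc 1 X,
      (q : ℝ) / 2 * (if x % q = y % q then (1 : ℝ) else 0) ≤
      ((w x * (starRingEnd ℂ) (w y)) * (if x % q = y % q then (q : ℂ) else 0)).re := by
    intro x hx y hy
    by_cases h : x % q = y % q
    · rw [if_pos h, if_pos h, mul_one]
      have hd : (q : ℤ) ∣ (x : ℤ) - y := by
        have : (y : ℤ) ≡ x [ZMOD q] :=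
          (Int.natCast_modEq_iff (a := y) (b := x) (n := q)).2 h.symm
        exact this.dvd
      obtain ⟨k, hk⟩ := hd
      have hk' : (x : ℝ) - y = q * k := by exact_mod_cast hk
      have hww : w x * (starRingEnd ℂ) (w y)
          = ph (β₀ * ((x : ℝ) - y) + β₁ * ((x : ℝ) ^ 2 - y ^ 2)) := by
        rw [hw]
        simp only
        rw [ph_conj, ← ph_add]
        have : β₀ * (x : ℝ) + ((a : ℝ) / q + β₁) * x ^ 2 + -(β₀ * y + ((a : ℝ) / q + β₁) * y ^ 2)
            = (β₀ * ((x : ℝ) - y) + β₁ * ((x : ℝ) ^ 2 - y ^ 2)) + ((a * k * (x + y) : ℤ) : ℝ) := by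
          push_cast
          have : (a : ℝ) / q * ((x : ℝ) ^ 2 - y ^ 2) = a * k * (x + y) := by
            have : (x : ℝ) ^ 2 - y ^ 2 = (q * k) * (x + y) := by rw [← hk']; ring
            rw [this]
            field_simp
          linarith
        rw [this, ph_add, ph_int, mul_one]
      rw [hww]
      have hre : (ph (β₀ * ((x : ℝ) - y) + β₁ * ((x : ℝ) ^ 2 - y ^ 2)) * (q : ℂ)).re
          = (q : ℝ) * Real.cos (2 * Real.pi * (β₀ * ((x : ℝ) - y) + β₁ * ((x : ℝ) ^ 2 - y ^ 2))) := by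
        rw [mul_comm, ← Complex.ofReal_natCast, Complex.re_ofReal_mul, ph_re]
      rw [hre]
      have hx' := Finset.mem_Icc.1 hx
      have hy' := Finset.mem_Icc.1 hy
      have hx1 : (1 : ℝ) ≤ x := by exact_mod_cast hx'.1
      have hx2 : (x : ℝ) ≤ X := by exact_mod_cast hx'.2
      have hy1 : (1 : ℝ) ≤ y := by exact_mod_cast hy'.1
      have hy2 : (y : ℝ) ≤ X := by exact_mod_cast hy'.2
      have b1 : |β₀ * ((x : ℝ) - y)| ≤ 1 / 12 := by
        rw [abs_mul, abs_of_nonneg h0]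
        have : |(x : ℝ) - y| ≤ X := by
          rw [abs_le]; constructor <;> linarith
        calc β₀ * |(x : ℝ) - y| ≤ 1 / (12 * X) * X :=
              mul_le_mul h0' this (abs_nonneg _) (by positivity)
          _ = 1 / 12 := by field_simp
      have b2 : |β₁ * ((x : ℝ) ^ 2 - y ^ 2)| ≤ 1 / 12 := by
        rw [abs_mul, abs_of_nonneg h1]
        have : |(x : ℝ) ^ 2 - y ^ 2| ≤ (X : ℝ) ^ 2 := by
          have hx3 : (x : ℝ) ^ 2 ≤ (X : ℝ) ^ 2 := by gcongr
          have hy3 : (y : ℝ) ^ 2 ≤ (X : ℝ) ^ 2 := by gcongr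
          have := sq_nonneg (x : ℝ)
          have := sq_nonneg (y : ℝ)
          rw [abs_le]; constructor <;> linarith
        calc β₁ * |(x : ℝ) ^ 2 - y ^ 2| ≤ 1 / (12 * (X : ℝ) ^ 2) * (X : ℝ) ^ 2 :=
              mul_le_mul h1' this (abs_nonneg _) (by positivity)
          _ = 1 / 12 := by field_simp
      have b3 : |β₀ * ((x : ℝ) - y) + β₁ * ((x : ℝ) ^ 2 - y ^ 2)| ≤ 1 / 6 := by
        refine (abs_add_le _ _).trans ?_
        linarith
      have b4 : (1 : ℝ) / 2 ≤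
          Real.cos (2 * Real.pi * (β₀ * ((x : ℝ) - y) + β₁ * ((x : ℝ) ^ 2 - y ^ 2))) := by
        rw [← Real.cos_abs, ← Real.cos_pi_div_three]
        apply Real.cos_le_cos_of_nonneg_of_le_pi (abs_nonneg _)
        · have := Real.pi_pos; linarith
        · rw [abs_mul, abs_of_pos (by have := Real.pi_pos; linarith)]
          have := Real.pi_pos
          nlinarith
      have hqq : (0 : ℝ) < q := by exact_mod_cast hq
      nlinarith
    · rw [if_neg h, if_neg h]
      simp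
  calc (X : ℝ) ^ 2 / 2 ≤ (q * ∑ x ∈ Icc 1 X, ∑ y ∈ Icc 1 X,
        (if x % q = y % q then (1 : ℝ) else 0)) / 2 := by
        have := pairs_lower q X hq
        linarith
    _ = ∑ x ∈ Icc 1 X, ∑ y ∈ Icc 1 X, (q : ℝ) / 2 * (if x % q = y % q then (1 : ℝ) else 0) := by
        rw [Finset.mul_sum, Finset.sum_div]
        refine Finset.sum_congr rfl fun x _ => ?_
        rw [Finset.mul_sum, Finset.sum_div]
        refine Finset.sum_congr rfl fun y _ => ?_
        ring
    _ ≤ _ := Finset.sum_le_sum fun x hx => Finset.sum_le_sum fun y hy => e4 x hx y hy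

/-- lower bound for `∑ q φ(q)`. -/
lemma totient_sum (Q : ℕ) (hQ : 0 < Q) :
    (Q : ℝ) ^ 3 / 64 ≤ ∑ d ∈ Icc 1 Q, (d : ℝ) * Nat.totient d := by
  have h1 : ∑ d ∈ Icc 1 Q, (Nat.totient d : ℝ) * ((Q / d : ℕ) : ℝ) = (Q : ℝ) * (Q + 1) / 2 := by
    have h2 : ∑ n ∈ Icc 1 Q, ∑ d ∈ n.divisors, Nat.totient d
        = ∑ d ∈ Icc 1 Q, Nat.totient d * (Q / d) := by
      have : ∀ n ∈ Icc 1 Q, ∑ d ∈ n.divisors, Nat.totient d
          = ∑ d ∈ Icc 1 Q, if d ∣ n then Nat.totient d else 0 := by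
        intro n hn
        rw [← Finset.sum_filter]
        refine Finset.sum_congr ?_ fun _ _ => rfl
        ext d
        have hn' := Finset.mem_Icc.1 hn
        simp only [Nat.mem_divisors, Finset.mem_filter, Finset.mem_Icc]
        constructor
        · rintro ⟨hd, hn0⟩
          exact ⟨⟨Nat.pos_of_dvd_of_pos hd (by omega), (Nat.le_of_dvd (by omega) hd).trans hn'.2⟩, hd⟩
        · rintro ⟨_, hd⟩
          exact ⟨hd, by omega⟩
      rw [Finset.sum_congr rfl this, Finset.sum_comm]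
      refine Finset.sum_congr rfl fun d _ => ?_
      rw [← Finset.sum_filter, Finset.sum_const, smul_eq_mul, mul_comm]
      congr 1
      have : (Icc 1 Q).filter (fun n => d ∣ n) = (Ioc 0 Q).filter (fun n => d ∣ n) := by
        ext n; simp only [Finset.mem_filter, Finset.mem_Icc, Finset.mem_Ioc]; constructor <;>
          (rintro ⟨h, h'⟩; exact ⟨⟨by omega, h.2⟩, h'⟩)
      rw [this, Nat.Ioc_filter_dvd_card_eq_div]
    have h3 : ∑ n ∈ Icc 1 Q, ∑ d ∈ n.divisors, Nat.totient d = ∑ n ∈ Icc 1 Q, n :=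
      Finset.sum_congr rfl fun n _ => Nat.sum_totient n
    have h4 : ((∑ n ∈ Icc 1 Q, n : ℕ) : ℝ) = (Q : ℝ) * (Q + 1) / 2 := by
      clear h2 h3 hQ
      induction Q with
      | zero => simp
      | succ n ih =>
        rw [Finset.sum_Icc_succ_top (by omega)]
        push_cast at ih ⊢
        rw [ih]
        ring
    rw [← h4, ← h3, h2]
    push_cast
    rfl
  have hQr : (0 : ℝ) < Q := by exact_mod_cast hQ
  -- split at D = Q/4
  have h5 : ∀ d ∈ Icc 1 Q, (Nat.totient d : ℝ) * ((Q / d : ℕ) : ℝ)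
      ≤ (if (d : ℝ) ≤ Q / 4 then (Q : ℝ) else 0) + 16 / Q * ((d : ℝ) * Nat.totient d) := by
    intro d hd
    have hd' := Finset.mem_Icc.1 hd
    have hd1 : (1 : ℝ) ≤ d := by exact_mod_cast hd'.1
    have hdiv : ((Q / d : ℕ) : ℝ) ≤ (Q : ℝ) / d := Nat.cast_div_le
    have htot : (Nat.totient d : ℝ) ≤ d := by exact_mod_cast Nat.totient_le d
    have ht0 : (0 : ℝ) ≤ Nat.totient d := Nat.cast_nonneg _
    by_cases h : (d : ℝ) ≤ Q / 4
    · rw [if_pos h]
      have : (Nat.totient d : ℝ) * ((Q / d : ℕ) : ℝ) ≤ Q := by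
        calc (Nat.totient d : ℝ) * ((Q / d : ℕ) : ℝ) ≤ d * ((Q : ℝ) / d) :=
              mul_le_mul htot hdiv (Nat.cast_nonneg _) (by linarith)
          _ = Q := by field_simp
      have : 0 ≤ 16 / (Q : ℝ) * ((d : ℝ) * Nat.totient d) := by positivity
      linarith
    · rw [if_neg h, zero_add]
      push Not at h
      have hd0 : (0 : ℝ) < d := by linarith
      calc (Nat.totient d : ℝ) * ((Q / d : ℕ) : ℝ) ≤ Nat.totient d * ((Q : ℝ) / d) :=
            mul_le_mul_of_nonneg_left hdiv ht0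
        _ ≤ Nat.totient d * (16 / Q * d) := by
            apply mul_le_mul_of_nonneg_left _ ht0
            rw [div_le_iff₀ hd0, div_mul_eq_mul_div, div_mul_eq_mul_div, le_div_iff₀ hQr]
            nlinarith
        _ = 16 / Q * ((d : ℝ) * Nat.totient d) := by ring
  have h6 := Finset.sum_le_sum h5
  rw [h1, Finset.sum_add_distrib, ← Finset.mul_sum] at h6
  have h7 : ∑ d ∈ Icc 1 Q, (if (d : ℝ) ≤ Q / 4 then (Q : ℝ) else 0) ≤ (Q : ℝ) ^ 2 / 4 := by
    rw [← Finset.sum_filter, Finset.sum_const, nsmul_eq_mul]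
    have hsub : (Icc 1 Q).filter (fun d : ℕ => (d : ℝ) ≤ Q / 4) ⊆ Icc 1 (Q / 4) := by
      intro d hd
      have := Finset.mem_filter.1 hd
      rw [Finset.mem_Icc] at this ⊢
      refine ⟨this.1.1, ?_⟩
      rw [Nat.le_div_iff_mul_le (by norm_num)]
      have h8 := this.2
      have h9 : (d : ℝ) * 4 ≤ Q := by linarith
      exact_mod_cast h9
    have hc : (((Icc 1 Q).filter (fun d : ℕ => (d : ℝ) ≤ Q / 4)).card : ℝ) ≤ Q / 4 := by
      have h8 := Finset.card_le_card hsub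
      rw [Nat.card_Icc, Nat.add_sub_cancel] at h8
      have h9 : ((Q / 4 : ℕ) : ℝ) ≤ (Q : ℝ) / 4 := by
        have := @Nat.cast_div_le ℝ _ _ _ Q 4
        simpa using this
      exact (by exact_mod_cast h8 : (((Icc 1 Q).filter (fun d : ℕ => (d : ℝ) ≤ Q / 4)).card : ℝ)
        ≤ ((Q / 4 : ℕ) : ℝ)).trans h9
    nlinarith
  have h8 : (Q : ℝ) ^ 2 / 4 ≤ 16 / Q * ∑ d ∈ Icc 1 Q, (d : ℝ) * Nat.totient d := by nlinarith
  have h9 : (Q : ℝ) * ((Q : ℝ) ^ 2 / 4) ≤ 16 * ∑ d ∈ Icc 1 Q, (d : ℝ) * Nat.totient d := by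
    have := mul_le_mul_of_nonneg_left h8 hQr.le
    have e : (Q : ℝ) * (16 / Q * ∑ d ∈ Icc 1 Q, (d : ℝ) * Nat.totient d)
        = 16 * ∑ d ∈ Icc 1 Q, (d : ℝ) * Nat.totient d := by
      field_simp
    rw [e] at this
    exact this
  nlinarith

end Pool.Agent.H222R3
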