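import Mathlib
import Pool.Agent.H222R3.Weyl2

set_option autoImplicit false

open Finset Complex MeasureTheory

namespace Pool.Agent.H222R3

/-- squared modulus of the quadratic Weyl sum. -/
noncomputable def Fs (X : ℕ) (α : Fin 2 → ℝ) : ℝ :=
  ‖∑ x ∈ Icc 1 X, ph (α 0 * x + α 1 * x ^ 2)‖ ^ 2

lemma Fs_cont (X : ℕ) : Continuous (Fs X) := by
  unfold Fs ph
  fun_prop

/-- small box at the point `p`. -/
def bx (X : ℕ) (p : Fin 2 → ℝ) : Set (Fin 2 → ℝ) :=
  Set.pi Set.univ fun j => Set.Ico (p j) (p j + ![1 / (12 * (X : ℝ)), 1 / (12 * (X : ℝ) ^ 2)] j)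

/-- the centre. -/
noncomputable def ctr (i : ℕ × ℕ × ℕ) : Fin 2 → ℝ :=
  ![(i.2.2 : ℝ) / i.1, (i.2.1 : ℝ) / i.1]

/-- index set `(q, a, b)`. -/
def idx (Q : ℕ) : Finset (Σ _ : ℕ, ℕ × ℕ) :=
  (Icc 1 Q).sigma fun q => ((range q).filter fun a => q.Coprime a) ×ˢ range q

lemma mem_bx {X : ℕ} {p α : Fin 2 → ℝ} : α ∈ bx X p ↔
    (p 0 ≤ α 0 ∧ α 0 < p 0 + 1 / (12 * (X : ℝ))) ∧
    (p 1 ≤ α 1 ∧ α 1 < p 1 + 1 / (12 * (X : ℝ) ^ 2)) := by
  unfold bx
  simp only [Set.mem_pi, Set.mem_univ, true_implies, Set.mem_Ico, Fin.forall_fin_two,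
    Matrix.cons_val_zero, Matrix.cons_val_one]

lemma bx_meas (X : ℕ) (p : Fin 2 → ℝ) : MeasurableSet (bx X p) := by
  unfold bx
  exact MeasurableSet.univ_pi fun j => measurableSet_Ico

lemma bx_vol (X : ℕ) (p : Fin 2 → ℝ) :
    volume (bx X p) = ENNReal.ofReal (1 / (144 * (X : ℝ) ^ 3)) := by
  unfold bx
  rw [Real.volume_pi_Ico, Fin.prod_univ_two]
  simp only [add_sub_cancel_left, Matrix.cons_val_zero, Matrix.cons_val_one]
  rw [← ENNReal.ofReal_mul (by positivity)]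
  congr 1
  by_cases h : (X : ℝ) = 0
  · rw [h]; norm_num
  · field_simp
    norm_num

lemma bx_int (X : ℕ) (p : Fin 2 → ℝ) : IntegrableOn (Fs X) (bx X p) := by
  have hK : IsCompact (Set.pi Set.univ fun j =>
      Set.Icc (p j) (p j + ![1 / (12 * (X : ℝ)), 1 / (12 * (X : ℝ) ^ 2)] j)) :=
    isCompact_univ_pi fun j => isCompact_Icc
  refine ((Fs_cont X).continuousOn.integrableOn_compact hK).mono_set ?_
  unfold bx
  exact Set.pi_mono fun j _ => Set.Ico_subset_Icc_self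

/-- translation -/
lemma bx_shift (X : ℕ) (p : Fin 2 → ℝ) :
    ∫ α in bx X p, Fs X α = ∫ β in bx X 0, Fs X (β + p) := by
  rw [← integral_indicator (bx_meas X p), ← integral_indicator (bx_meas X 0),
    ← integral_add_right_eq_self _ p]
  congr 1
  ext β
  have : β + p ∈ bx X p ↔ β ∈ bx X 0 := by
    rw [mem_bx, mem_bx]
    simp only [Pi.add_apply, Pi.zero_apply, zero_add]
    constructor
    · rintro ⟨⟨a, b⟩, c, d⟩
      exact ⟨⟨by linarith, by linarith⟩, by linarith, by linarith⟩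
    · rintro ⟨⟨a, b⟩, c, d⟩
      exact ⟨⟨by linarith, by linarith⟩, by linarith, by linarith⟩
  by_cases h : β ∈ bx X 0
  · rw [Set.indicator_of_mem h, Set.indicator_of_mem (this.2 h)]
  · rw [Set.indicator_of_notMem h, Set.indicator_of_notMem (fun h' => h (this.1 h'))]

/-- sum over `b`. -/
lemma sum_b (X q a : ℕ) (hq : 0 < q) (hX : 0 < X) :
    (1 / (144 * (X : ℝ) ^ 3)) * ((X : ℝ) ^ 2 / 2) ≤
      ∑ b ∈ range q, ∫ α in bx X ![(b : ℝ) / q, (a : ℝ) / q], Fs X α := by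
  simp_rw [bx_shift]
  have hint : ∀ b ∈ range q, IntegrableOn
      (fun β => Fs X (β + ![(b : ℝ) / q, (a : ℝ) / q])) (bx X 0) := by
    intro b _
    have hc : Continuous fun β : Fin 2 → ℝ => Fs X (β + ![(b : ℝ) / q, (a : ℝ) / q]) :=
      (Fs_cont X).comp (continuous_id.add continuous_const)
    have hK : IsCompact (Set.pi Set.univ fun j : Fin 2 =>
        Set.Icc ((0 : Fin 2 → ℝ) j) ((0 : Fin 2 → ℝ) j + ![1 / (12 * (X : ℝ)), 1 / (12 * (X : ℝ) ^ 2)] j)) :=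
      isCompact_univ_pi fun j => isCompact_Icc
    refine (hc.continuousOn.integrableOn_compact hK).mono_set ?_
    unfold bx
    exact Set.pi_mono fun j _ => Set.Ico_subset_Icc_self
  rw [← integral_finsetSum _ hint]
  have hv : (volume (bx X 0)).toReal = 1 / (144 * (X : ℝ) ^ 3) := by
    rw [bx_vol, ENNReal.toReal_ofReal (by positivity)]
  have hfin : volume (bx X 0) ≠ ⊤ := by
    rw [bx_vol]; exact ENNReal.ofReal_ne_top
  have hc : ∫ β in bx X 0, ((X : ℝ) ^ 2 / 2) = (1 / (144 * (X : ℝ) ^ 3)) * ((X : ℝ) ^ 2 / 2) := by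
    rw [setIntegral_const, smul_eq_mul, Measure.real, hv]
  rw [← hc]
  apply setIntegral_mono_on _ _ (bx_meas X 0)
  · intro β hβ
    rw [mem_bx] at hβ
    simp only [Pi.zero_apply, zero_add] at hβ
    have := pointwise q a X hq hX (β 0) (β 1) hβ.1.1 hβ.1.2.le hβ.2.1 hβ.2.2.le
    refine this.trans (le_of_eq ?_)
    refine Finset.sum_congr rfl fun b _ => ?_
    unfold Fs
    simp only [Pi.add_apply, Matrix.cons_val_zero, Matrix.cons_val_one]
    congr 2
    refine Finset.sum_congr rfl fun x _ => ?_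
    rw [add_comm (β 0), add_comm (β 1)]
  · exact integrableOn_const hfin
  · exact integrable_finsetSum _ hint

lemma idx_disj (X Q : ℕ) (hQX : Q ≤ X) :
    Set.PairwiseDisjoint (↑(idx Q)) fun i : (Σ _ : ℕ, ℕ × ℕ) =>
      bx X ![(i.2.2 : ℝ) / i.1, (i.2.1 : ℝ) / i.1] := by
  rintro ⟨q, a, b⟩ hi ⟨q', a', b'⟩ hi' hne
  simp only [idx, Finset.coe_sigma, Set.mem_sigma_iff, Finset.mem_coe, Finset.mem_Icc,
    Finset.mem_product, Finset.mem_filter, Finset.mem_range] at hi hi'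
  obtain ⟨⟨hq1, hqQ⟩, ⟨haq, hc⟩, hbq⟩ := hi
  obtain ⟨⟨hq1', hqQ'⟩, ⟨haq', hc'⟩, hbq'⟩ := hi'
  rw [Function.onFun, Set.disjoint_left]
  intro α h h'
  rw [mem_bx] at h h'
  simp only [Matrix.cons_val_zero, Matrix.cons_val_one] at h h'
  have hX : 0 < X := by omega
  have hXr : (1 : ℝ) ≤ X := by exact_mod_cast hX
  have hqr : (1 : ℝ) ≤ q := by exact_mod_cast hq1
  have hqr' : (1 : ℝ) ≤ q' := by exact_mod_cast hq1'
  have hqX : (q : ℝ) ≤ X := by exact_mod_cast hqQ.trans hQX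
  have hqX' : (q' : ℝ) ≤ X := by exact_mod_cast hqQ'.trans hQX
  -- a/q and a'/q' are close
  have key : ∀ (u v s t : ℕ), 1 ≤ s → 1 ≤ t → (s : ℝ) ≤ X → (t : ℝ) ≤ X →
      (u : ℝ) / s < v / t + 1 / (12 * (X : ℝ) ^ 2) → (v : ℝ) / t < u / s + 1 / (12 * (X : ℝ) ^ 2) →
      u * t = v * s := by
    intro u v s t hs ht hsX htX h1 h2
    have hs' : (0 : ℝ) < s := by exact_mod_cast hs
    have ht' : (0 : ℝ) < t := by exact_mod_cast ht
    have hst : (s : ℝ) * t ≤ X ^ 2 := by nlinarith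
    have hb : (s : ℝ) * t * (1 / (12 * (X : ℝ) ^ 2)) ≤ 1 / 12 := by
      rw [mul_one_div, div_le_iff₀ (by positivity)]
      nlinarith
    have e1 : (u : ℝ) * t < v * s + 1 := by
      have := mul_lt_mul_of_pos_left h1 (mul_pos hs' ht')
      have l : (s : ℝ) * t * (u / s) = u * t := by field_simp
      have r : (s : ℝ) * t * (v / t + 1 / (12 * (X : ℝ) ^ 2)) = v * s + s * t * (1 / (12 * (X : ℝ) ^ 2)) := by
        field_simp
      rw [l, r] at this
      linarith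
    have e2 : (v : ℝ) * s < u * t + 1 := by
      have := mul_lt_mul_of_pos_left h2 (mul_pos hs' ht')
      have l : (s : ℝ) * t * (v / t) = v * s := by field_simp
      have r : (s : ℝ) * t * (u / s + 1 / (12 * (X : ℝ) ^ 2)) = u * t + s * t * (1 / (12 * (X : ℝ) ^ 2)) := by
        field_simp
      rw [l, r] at this
      linarith
    have e1' : u * t < v * s + 1 := by exact_mod_cast e1
    have e2' : v * s < u * t + 1 := by exact_mod_cast e2
    omega
  have k1 := key a a' q q' hq1 hq1' hqX hqX' (by linarith [h.2.1, h'.2.2]) (by linarith [h'.2.1, h.2.2])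
  have hdiv : q ∣ q' := by
    have : q ∣ a * q' := ⟨a', by rw [k1]; ring⟩
    exact hc.dvd_of_dvd_mul_left this
  have hdiv' : q' ∣ q := by
    have : q' ∣ a' * q := ⟨a, by rw [← k1]; ring⟩
    exact hc'.dvd_of_dvd_mul_left this
  have hqq : q = q' := Nat.dvd_antisymm hdiv hdiv'
  subst hqq
  have haa : a = a' := Nat.eq_of_mul_eq_mul_right (by omega) k1
  subst haa
  have hbb : b = b' := by
    have hq0 : (0 : ℝ) < q := by linarith
    have hb : (q : ℝ) * (1 / (12 * (X : ℝ))) ≤ 1 / 12 := by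
      rw [mul_one_div, div_le_iff₀ (by positivity)]
      linarith
    have e1 : (b : ℝ) < b' + 1 := by
      have h1 : (b : ℝ) / q < b' / q + 1 / (12 * (X : ℝ)) := by linarith [h.1.1, h'.1.2]
      have := mul_lt_mul_of_pos_left h1 hq0
      have l : (q : ℝ) * (b / q) = b := by field_simp
      have r : (q : ℝ) * (b' / q + 1 / (12 * (X : ℝ))) = b' + q * (1 / (12 * (X : ℝ))) := by
        field_simp
      rw [l, r] at this
      linarith
    have e2 : (b' : ℝ) < b + 1 := by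
      have h1 : (b' : ℝ) / q < b / q + 1 / (12 * (X : ℝ)) := by linarith [h'.1.1, h.1.2]
      have := mul_lt_mul_of_pos_left h1 hq0
      have l : (q : ℝ) * (b' / q) = b' := by field_simp
      have r : (q : ℝ) * (b / q + 1 / (12 * (X : ℝ))) = b + q * (1 / (12 * (X : ℝ))) := by
        field_simp
      rw [l, r] at this
      linarith
    have e1' : b < b' + 1 := by exact_mod_cast e1
    have e2' : b' < b + 1 := by exact_mod_cast e2
    omega
  subst hbb
  exact hne rfl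

/-- the bad set. -/
noncomputable def Bs (X Q : ℕ) : Set (Fin 2 → ℝ) :=
  ⋃ i ∈ idx Q, bx X ![(i.2.2 : ℝ) / i.1, (i.2.1 : ℝ) / i.1]

lemma Bs_meas (X Q : ℕ) : MeasurableSet (Bs X Q) :=
  Finset.measurableSet_biUnion _ fun _ _ => bx_meas _ _

lemma Bs_sub (X Q : ℕ) (hQX : Q ≤ X) :
    Bs X Q ⊆ Set.pi Set.univ (fun _ => Set.Ico (0 : ℝ) 1) := by
  intro α hα
  simp only [Bs, Set.mem_iUnion] at hα
  obtain ⟨⟨q, a, b⟩, hi, h⟩ := hα
  simp only [idx, Finset.mem_sigma, Finset.mem_Icc,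
    Finset.mem_product, Finset.mem_filter, Finset.mem_range] at hi
  obtain ⟨⟨hq1, hqQ⟩, ⟨haq, hc⟩, hbq⟩ := hi
  rw [mem_bx] at h
  simp only [Matrix.cons_val_zero, Matrix.cons_val_one] at h
  have hX : 0 < X := by omega
  have hXr : (1 : ℝ) ≤ X := by exact_mod_cast hX
  have hqr : (1 : ℝ) ≤ q := by exact_mod_cast hq1
  have hq0 : (0 : ℝ) < q := by linarith
  have hqX : (q : ℝ) ≤ X := by exact_mod_cast hqQ.trans hQX
  have e1 : ∀ u : ℕ, u < q → (u : ℝ) / q + 1 / (12 * (X : ℝ)) ≤ 1 := by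
    intro u hu
    have hu' : (u : ℝ) + 1 ≤ q := by exact_mod_cast hu
    have h1 : (u : ℝ) / q ≤ 1 - 1 / q := by
      rw [div_le_iff₀ hq0, sub_mul, div_mul_cancel₀ _ hq0.ne']
      linarith
    have h2 : 1 / (12 * (X : ℝ)) ≤ 1 / q := by
      apply one_div_le_one_div_of_le hq0
      linarith
    linarith
  have e2 : 1 / (12 * (X : ℝ) ^ 2) ≤ 1 / (12 * (X : ℝ)) := by
    apply one_div_le_one_div_of_le (by positivity)
    nlinarith
  have n1 : (0 : ℝ) ≤ (b : ℝ) / q := by positivity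
  have n2 : (0 : ℝ) ≤ (a : ℝ) / q := by positivity
  have := e1 b hbq
  have := e1 a haq
  rw [Set.mem_pi]
  intro j _
  fin_cases j
  · exact ⟨by simpa using n1.trans h.1.1, by simpa using lt_of_lt_of_le h.1.2 (by linarith)⟩
  · exact ⟨by simpa using n2.trans h.2.1, by simpa using lt_of_lt_of_le h.2.2 (by linarith)⟩

lemma idx_sum (Q : ℕ) (g : ℕ → ℕ → ℕ → ℝ) :
    ∑ i ∈ idx Q, g i.1 i.2.1 i.2.2 = ∑ q ∈ Icc 1 Q,
      ∑ a ∈ (range q).filter (fun a => q.Coprime a), ∑ b ∈ range q, g q a b := by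
  unfold idx
  rw [Finset.sum_sigma]
  refine Finset.sum_congr rfl fun q _ => ?_
  rw [Finset.sum_product]

lemma Bs_vol (X Q : ℕ) (hQX : Q ≤ X) :
    (volume (Bs X Q)).toReal = (1 / (144 * (X : ℝ) ^ 3)) * ∑ q ∈ Icc 1 Q, (q : ℝ) * Nat.totient q := by
  unfold Bs
  rw [measure_biUnion_finset (idx_disj X Q hQX) (fun _ _ => bx_meas _ _)]
  simp_rw [bx_vol]
  rw [Finset.sum_const, nsmul_eq_mul, ENNReal.toReal_mul, ENNReal.toReal_ofReal (by positivity),
    mul_comm]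
  congr 1
  have h := idx_sum Q fun _ _ _ => 1
  simp only [Finset.sum_const, nsmul_eq_mul, mul_one, Finset.card_range] at h
  rw [ENNReal.toReal_natCast, h]
  refine Finset.sum_congr rfl fun q _ => ?_
  rw [← Nat.totient_eq_card_coprime, mul_comm]

lemma Bs_int (X Q : ℕ) (hX : 0 < X) (hQ : 0 < Q) (hQX : Q ≤ X) :
    (X : ℝ) ^ 2 / (2 * Q) * (volume (Bs X Q)).toReal ≤ ∫ α in Bs X Q, Fs X α := by
  rw [Bs_vol X Q hQX]
  unfold Bs
  rw [integral_biUnion_finset (idx Q) (fun _ _ => bx_meas _ _) (idx_disj X Q hQX)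
    (fun _ _ => bx_int _ _)]
  have h := idx_sum Q fun q a b => ∫ α in bx X ![(b : ℝ) / q, (a : ℝ) / q], Fs X α
  rw [h]
  have hQr : (0 : ℝ) < Q := by exact_mod_cast hQ
  have hXr : (0 : ℝ) < X := by exact_mod_cast hX
  calc (X : ℝ) ^ 2 / (2 * Q) * ((1 / (144 * (X : ℝ) ^ 3)) * ∑ q ∈ Icc 1 Q, (q : ℝ) * Nat.totient q)
      = ∑ q ∈ Icc 1 Q, ((q : ℝ) / Q) * (Nat.totient q * ((1 / (144 * (X : ℝ) ^ 3)) * ((X : ℝ) ^ 2 / 2))) := by
        rw [Finset.mul_sum, Finset.mul_sum]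
        refine Finset.sum_congr rfl fun q _ => ?_
        field_simp
    _ ≤ ∑ q ∈ Icc 1 Q, (Nat.totient q * ((1 / (144 * (X : ℝ) ^ 3)) * ((X : ℝ) ^ 2 / 2))) := by
        refine Finset.sum_le_sum fun q hq => ?_
        have hq' := Finset.mem_Icc.1 hq
        have : (q : ℝ) / Q ≤ 1 := by
          rw [div_le_one hQr]; exact_mod_cast hq'.2
        have h0 : 0 ≤ (Nat.totient q * ((1 / (144 * (X : ℝ) ^ 3)) * ((X : ℝ) ^ 2 / 2))) := by positivity
        nlinarith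
    _ ≤ _ := by
        refine Finset.sum_le_sum fun q hq => ?_
        have hq' := Finset.mem_Icc.1 hq
        rw [Nat.totient_eq_card_coprime, ← nsmul_eq_mul, ← Finset.sum_const]
        refine Finset.sum_le_sum fun a _ => ?_
        exact sum_b X q a (by omega) hX

end Pool.Agent.H222R3
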